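import Pool.Agent.T6.H9.LS.Ex

/-!
# Nagao's formula for almost all families of complete intersection curves in an arbitrary family
of varieties

Owner helper9. Let `K` be a number field, `Y` a closed subset of an affine space over `𝓞_K`, and let
`Z → Y` be ANY family of projective varieties of dimension `r + 1` (a closed subset of the product of
a projective space and `Y` with `O(q_v^{d + r + 1})` points modulo `v`). Let `B ⊆ Z` be the common
zeros of any forms `g_i` (for instance `B` empty, or sections of `Z → Y`). We consider the families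
`X → Y` of the curves `X_t ⊆ Z_t` defined by `r` equations `f_j = ∑_i h_ji g_i` of any degrees
larger than those of the `g_i`, with arbitrary polynomials `h_ji`, ordered by their size.

(1) For almost all `h`, for all `X` up to a power of the size, the Nagao sum of the averages
`q_v^{-d} ∑_t (q_v + 1 - #X_t)` over the places with `q_v ≤ X` is, up to `X^{1/2+δ}` (and `X^δ` if
`d ≥ 2`), the corresponding sum for `q_v^{-d} ∑_t (q_v + 1 - #B_t - q_v^{-r} (#Z_t - #B_t))`. If the
fibration form of Tate's conjecture holds for `Z → Y` then the latter is `-R X`, `R` = (rank of the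
Néron-Severi group of the generic fibre of `Z`) `- 1 +` (number of the components of `B`, if it is of
dimension zero over `Y`), apart from the contribution of the trace of the Picard variety of `Z`;
this is the rank that Q1 predicts for the Jacobian of the generic fibre of `X`.

(2) If `Z` is the product of `Y` and a projective space and `B` is empty then the Nagao sums are those
of rank `0`: almost all families of complete intersection curves (for `r = 1`, of plane curves).

(3) If `Y` is the affine space, `Z` is the product of `Y` and a projective space and `B` consists of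
`ρ` different sections `(1 : a_i(t) : 0 : ... : 0)`, then the Nagao sums are those of rank `ρ`.
-/

set_option autoImplicit false

open NumberField IsDedekindDomain

namespace Pool.Agent.Results.MP_3d3918_nt.CompleteIntersectionCurves

open Pool.Agent.T6.H9.CurveAvg Pool.Agent.T6.H9.LS Pool.Agent.T6.H9.HY Pool.Agent.T6.H9.QM

/-- **Nagao's formula for almost all families of complete intersection curves.** -/
theorem result {K : Type} [Field K] [NumberField K] {ι : Type} [Fintype ι]
    (ω : Module.Basis ι ℤ (𝓞 K)) (m n r : ℕ) (hn : 1 ≤ n) (D : Fin r → ℕ) (δ : ℝ) (hδ : 0 < δ) :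
    (∀ (M d : ℕ) (I : Set (MvPolynomial (Fin m) (𝓞 K))) (S : Set (Pol K M m)) (A : ℝ),
      (∀ v : HeightOneSpectrum (𝓞 K), ∑ᶠ t ∈ base I v, fibrePoints S v t ≤
        A * (Ideal.absNorm v.asIdeal : ℝ) ^ (d + r + 1)) →
      ∀ (s : ℕ) (e : Fin s → ℕ) (g : Fin s → Pol K M m), (∀ j i, e i < D j) →
      ∃ L : ℝ, 0 < L ∧ ∀ (N : ℕ) (B : Idx M m n D e × ι → ℕ), (∀ j, N ≤ B j) →
        ∀ X₀ : ℝ, 1 ≤ X₀ →
        ({c : Idx M m n D e → 𝓞 K | c ∈ Box ω B ∧ ∃ X : ℕ, X₀ ≤ X ∧ X ^ (2 * r + 6) ≤ N ∧
          (X : ℝ) ^ (max 0 (1 - (d : ℝ) / 2) + δ) < |∑ᶠ v ∈ places K X,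
            (fibreAverage I d (S ∪ Set.range (member g c)) v - ambientAverage I d r S g v) *
              Real.log (Ideal.absNorm v.asIdeal)|}.ncard : ℝ) ≤
          L * X₀ ^ (-δ) * ((Box ω B : Set (Idx M m n D e → 𝓞 K)).ncard : ℝ)) ∧
    (∀ (d : ℕ) (I : Set (MvPolynomial (Fin m) (𝓞 K))) (A : ℝ),
      (∀ v : HeightOneSpectrum (𝓞 K),
        ((base I v).ncard : ℝ) ≤ A * (Ideal.absNorm v.asIdeal : ℝ) ^ d) →
      (∀ j, 0 < D j) →
      ∃ L : ℝ, 0 < L ∧ ∀ (N : ℕ) (B : Idx (r + 2) m n D (fun _ : Unit => 0) × ι → ℕ),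
        (∀ j, N ≤ B j) → ∀ X₀ : ℝ, 1 ≤ X₀ →
        ({c : Idx (r + 2) m n D (fun _ : Unit => 0) → 𝓞 K | c ∈ Box ω B ∧
          ∃ X : ℕ, X₀ ≤ X ∧ X ^ (2 * r + 6) ≤ N ∧
          (X : ℝ) ^ (max 0 (1 - (d : ℝ) / 2) + δ) < |∑ᶠ v ∈ places K X,
            fibreAverage I d (Set.range (member (fun _ : Unit => (1 : Pol K (r + 2) m)) c)) v *
              Real.log (Ideal.absNorm v.asIdeal)|}.ncard : ℝ) ≤
          L * X₀ ^ (-δ) *
            ((Box ω B : Set (Idx (r + 2) m n D (fun _ : Unit => 0) → 𝓞 K)).ncard : ℝ)) ∧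
    (1 ≤ r → ∀ (ρ : ℕ) (a : Fin ρ → MvPolynomial (Fin m) (𝓞 K)), Function.Injective a →
      (∀ j, ρ < D j ∧ 1 < D j) →
      ∃ L : ℝ, 0 < L ∧ ∀ (N : ℕ) (B : Idx (r + 2) m n D (sectionDegrees r ρ) × ι → ℕ),
        (∀ j, N ≤ B j) → ∀ X₀ : ℝ, 1 ≤ X₀ →
        ({c : Idx (r + 2) m n D (sectionDegrees r ρ) → 𝓞 K | c ∈ Box ω B ∧
          ∃ X : ℕ, X₀ ≤ X ∧ X ^ (2 * r + 6) ≤ N ∧
          (X : ℝ) ^ (max 0 (1 - (m : ℝ) / 2) + δ) < |∑ᶠ v ∈ places K X,
            (fibreAverage ∅ m (Set.range (member (sectionForms a) c)) v + (ρ : ℝ)) *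
              Real.log (Ideal.absNorm v.asIdeal)|}.ncard : ℝ) ≤
          L * X₀ ^ (-δ) *
            ((Box ω B : Set (Idx (r + 2) m n D (sectionDegrees r ρ) → 𝓞 K)).ncard : ℝ)) := by
  classical
  have hcard : Fintype.card (Fin r) = r := Fintype.card_fin r
  refine ⟨?_, ?_, ?_⟩
  · intro M d I S A hA s e g hD
    have hA0 : 0 ≤ A := by
      obtain ⟨v, -⟩ := exists_large (K := K) 0
      have h1 := hA v
      have h2 : (0 : ℝ) < (Ideal.absNorm v.asIdeal : ℝ) ^ (d + r + 1) := by
        have := one_le_qvR v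
        positivity
      have h3 : (0 : ℝ) ≤ ∑ᶠ t ∈ base I v, fibrePoints S v t := by
        rw [← bs_coe, finsum_mem_coe_finset]
        refine Finset.sum_nonneg fun t _ => ?_
        rw [points_eq]
        exact div_nonneg (Nat.cast_nonneg _) (Pool.Agent.T6.H9.NL.q_sub_pos v).le
      by_contra hcon
      push Not at hcon
      nlinarith
    obtain ⟨L, hL0, hL⟩ := main (τ := Fin r) (n := n) S g I d (A := A)
      (fun v => by rw [hcard]; exact hA v) ω hA0 hD hn hδ
      (fun v => ambientAverage I d r S g v) (D' := 0) le_rfl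
      (fun v => by rw [hcard, sub_self, abs_zero, zero_div])
    refine ⟨L, hL0, fun N B hB X₀ hX₀ => ?_⟩
    have h1 := hL N B hB X₀ hX₀
    rwa [hcard] at h1
  · intro d I A hI hD
    have hA0 : 0 ≤ A := by
      obtain ⟨v, -⟩ := exists_large (K := K) 0
      have h1 := hI v
      have h2 : (0 : ℝ) < (Ideal.absNorm v.asIdeal : ℝ) ^ d := by
        have := one_le_qvR v
        positivity
      have h3 : (0 : ℝ) ≤ ((base I v).ncard : ℝ) := Nat.cast_nonneg _
      by_contra hcon
      push Not at hcon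
      nlinarith
    obtain ⟨L, hL0, hL⟩ := main (τ := Fin r) (n := n) (e := fun _ : Unit => 0) (D := D)
      (∅ : Set (Pol K (r + 2) m)) (fun _ : Unit => 1) I d (A := 2 * A)
      (fun v => by rw [hcard]; exact proj_hyp hI r v) ω (by positivity) (fun j _ => hD j) hn hδ
      (fun _ => 0) (D' := 2 * A) (by positivity)
      (fun v => by rw [hcard]; exact ambient_one hI r v)
    refine ⟨L, hL0, fun N B hB X₀ hX₀ => ?_⟩
    have h1 := hL N B hB X₀ hX₀
    simp only [hcard, sub_zero, Set.empty_union] at h1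
    exact h1
  · intro hr ρ a ha hD
    obtain ⟨D', hD'0, hD'⟩ := ambient_sections a ha hr
    have hI : ∀ v : HeightOneSpectrum (𝓞 K),
        ((base (∅ : Set (MvPolynomial (Fin m) (𝓞 K))) v).ncard : ℝ) ≤
          1 * (Ideal.absNorm v.asIdeal : ℝ) ^ m := by
      intro v
      have h1 := Pool.Agent.T6.H9.NA.ncard_base_empty (m := m) v
      rw [one_mul]
      exact le_of_eq h1
    obtain ⟨L, hL0, hL⟩ := main (τ := Fin r) (n := n) (e := sectionDegrees r ρ) (D := D)
      (∅ : Set (Pol K (r + 2) m)) (sectionForms a) ∅ m (A := 2 * 1)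
      (fun v => by rw [hcard]; exact proj_hyp hI r v) ω (by positivity)
      (fun j i => by
        cases i with
        | none => exact (hD j).1
        | some k => exact (hD j).2) hn hδ
      (fun _ => -(ρ : ℝ)) hD'0
      (fun v => by rw [hcard]; exact hD' v)
    refine ⟨L, hL0, fun N B hB X₀ hX₀ => ?_⟩
    have h1 := hL N B hB X₀ hX₀
    simp only [hcard, sub_neg_eq_add, Set.empty_union] at h1
    exact h1

end Pool.Agent.Results.MP_3d3918_nt.CompleteIntersectionCurves
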