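import Pool.Agent.T6.H9.NA.Sec

/-!
# Nagao's formula for almost all hyperelliptic fibrations with prescribed multisections

Owner helper9. Let `K` be a number field, `Y` a closed subset of an affine space over `𝓞_K` with
`O(q_v^d)` points modulo `v`, and `P` a polynomial in `x` over `𝓞_K[t]`, monic of degree
`r ≤ 2γ - 1`. Consider all the fibrations `y² = f(x, t)`, `f = P h + g²`, in hyperelliptic curves of
genus `γ` over `Y`, with `g`, `h` in `𝓞_K[t][x]`, `deg_x g ≤ γ`, `h` monic of degree `2γ + 1 - r` in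
`x`, the degrees in the `t_j` at most `n`, ordered by the size of the coefficients: these are
fibrations with the multisection `P = 0`, `y = g`. For almost all of them the fibre averages `A_v`
satisfy `- ∑_{q_v ≤ X} A_v log q_v = ∑_{q_v ≤ X} q_v^{-d} #{P = 0}(F_v) log q_v + O(X^{1/2+δ})` for
all `X` up to a power of the size; in particular, for `P = ∏ (x - a_i(t))` and `Y` the affine
space, `- ∑ A_v log q_v = r ∑ log q_v + O(X^{1/2+δ})`.
-/

set_option autoImplicit false

open NumberField IsDedekindDomain Polynomial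

namespace Pool.Agent.Results.MP_3d3918_nt.NagaoOnAverage

open Pool.Agent.T6.H9.NagaoAvg Pool.Agent.T6.H9.NA Pool.Agent.T6.H9.QM

/-- **Nagao's formula on average.** -/
theorem result {K : Type} [Field K] [NumberField K] {ι : Type} [Fintype ι]
    (ω : Module.Basis ι ℤ (𝓞 K)) (γ n : ℕ) (hγ : 1 ≤ γ) (hn : 1 ≤ n) (δ : ℝ) (hδ : 0 < δ) :
    (∀ (m d : ℕ) (I : Set (MvPolynomial (Fin m) (𝓞 K))) (A : ℝ),
      (∀ v : HeightOneSpectrum (𝓞 K),
        ((base I v).ncard : ℝ) ≤ A * (Ideal.absNorm v.asIdeal : ℝ) ^ d) →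
      ∀ P : (MvPolynomial (Fin m) (𝓞 K))[X], P.Monic → P.natDegree ≤ 2 * γ - 1 →
      ∃ L : ℝ, 0 < L ∧ ∀ (N : ℕ) (B : Idx γ (2 * γ + 1 - P.natDegree) m n × ι → ℕ),
        (∀ j, N ≤ B j) → ∀ X₀ : ℝ, 1 ≤ X₀ →
        ({c : Idx γ (2 * γ + 1 - P.natDegree) m n → 𝓞 K | c ∈ Box ω B ∧
          ∃ X : ℕ, X₀ ≤ X ∧ X ^ 6 ≤ N ∧
            (X : ℝ) ^ (max 0 (1 - (d : ℝ) / 2) + δ) < |∑ᶠ v ∈ primes K X,
              (fibreAverage I d (fib P c) v +
                (zeros I P v : ℝ) / (Ideal.absNorm v.asIdeal : ℝ) ^ d) *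
              Real.log (Ideal.absNorm v.asIdeal)|}.ncard : ℝ) ≤
          L * X₀ ^ (-δ) * ((Box ω B).ncard : ℝ)) ∧
    (∀ (m r : ℕ) (a : Fin r → MvPolynomial (Fin m) (𝓞 K)), Function.Injective a →
      r ≤ 2 * γ - 1 →
      ∃ L : ℝ, 0 < L ∧ ∀ (N : ℕ) (B : Idx γ (2 * γ + 1 - r) m n × ι → ℕ),
        (∀ j, N ≤ B j) → ∀ X₀ : ℝ, 1 ≤ X₀ →
        ({c : Idx γ (2 * γ + 1 - r) m n → 𝓞 K | c ∈ Box ω B ∧
          ∃ X : ℕ, X₀ ≤ X ∧ X ^ 6 ≤ N ∧
            (X : ℝ) ^ (max 0 (1 - (m : ℝ) / 2) + δ) < |∑ᶠ v ∈ primes K X,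
              (fibreAverage ∅ m (fib (∏ i, (Polynomial.X - Polynomial.C (a i))) c) v + (r : ℝ)) *
              Real.log (Ideal.absNorm v.asIdeal)|}.ncard : ℝ) ≤
          L * X₀ ^ (-δ) * ((Box ω B).ncard : ℝ)) := by
  classical
  constructor
  · intro m d I A hI P hP hdeg
    have hA : 0 ≤ A := by
      obtain ⟨v, -⟩ := Pool.Agent.T6.H9.HY.exists_large (K := K) 0
      have h1 := hI v
      have h2 : (0 : ℝ) < (Ideal.absNorm v.asIdeal : ℝ) ^ d := by
        have := one_le_qvR v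
        positivity
      by_contra hcon
      push Not at hcon
      have h3 : (0 : ℝ) ≤ ((base I v).ncard : ℝ) := Nat.cast_nonneg _
      nlinarith
    refine main I d hA hI ω hγ (by omega) hn hδ P (D := A * P.natDegree)
      (mul_nonneg hA (Nat.cast_nonneg _)) _ fun v hv => ?_
    have hq : (0 : ℝ) < Ideal.absNorm v.asIdeal := by
      have := one_le_qvR v
      linarith
    have h1 := zeros_le I hP v
    have h2 := hI v
    rw [card_bs] at h2
    have h3 : (zeros I P v : ℝ) / (Ideal.absNorm v.asIdeal : ℝ) ^ d ≤ A * P.natDegree := by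
      rw [div_le_iff₀ (by positivity)]
      refine h1.trans ((mul_le_mul_of_nonneg_right h2 (Nat.cast_nonneg _)).trans (le_of_eq ?_))
      ring
    have h4 : (zeros I P v : ℝ) / (Ideal.absNorm v.asIdeal : ℝ) ^ d -
        (1 - 1 / (Ideal.absNorm v.asIdeal : ℝ)) *
          ((zeros I P v : ℝ) / (Ideal.absNorm v.asIdeal : ℝ) ^ d) =
        ((zeros I P v : ℝ) / (Ideal.absNorm v.asIdeal : ℝ) ^ d) /
          (Ideal.absNorm v.asIdeal : ℝ) := by ring
    rw [h4, abs_of_nonneg (by positivity)]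
    exact div_le_div_of_nonneg_right h3 hq.le
  · intro m r a ha hr
    obtain ⟨D, hD, hz⟩ := zeros_prod a ha
    refine main ∅ m (zero_le_one' ℝ) (fun v => ?_) ω hγ (by omega) hn hδ
      (∏ i, (X - C (a i))) (D := D + (r + D)) (by positivity) (fun _ => (r : ℝ)) fun v hv => ?_
    · rw [ncard_base_empty, one_mul]
    · have hq1 := one_le_qvR v
      have hq : (0 : ℝ) < Ideal.absNorm v.asIdeal := by linarith
      have h1 := hz v
      set z : ℝ := (zeros ∅ (∏ i, (X - C (a i))) v : ℝ) / (Ideal.absNorm v.asIdeal : ℝ) ^ m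
        with hzdef
      have h2 : 0 ≤ z := by positivity
      have h3 : z ≤ r + D := by
        have h4 := (abs_le.1 h1).1
        have h5 : D / (Ideal.absNorm v.asIdeal : ℝ) ≤ D := div_le_self hD hq1
        linarith
      have h4 : (r : ℝ) - (1 - 1 / (Ideal.absNorm v.asIdeal : ℝ)) * z =
          (r - z) + z / (Ideal.absNorm v.asIdeal : ℝ) := by ring
      rw [h4]
      refine (abs_add_le _ _).trans ?_
      rw [abs_of_nonneg (by positivity : 0 ≤ z / (Ideal.absNorm v.asIdeal : ℝ)), add_div]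
      exact add_le_add h1 (div_le_div_of_nonneg_right h3 hq.le)

end Pool.Agent.Results.MP_3d3918_nt.NagaoOnAverage
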