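import Pool.Agent.T6.H77.NB.Fin2
import Pool.Agent.T6.H77.NB.Cl

/-!
# The analytic Nagao conjecture for fibrations in curves which are relatively rational

`k` is a number field, `M` is any finitely generated field over `k`, and `f : 𝒳 → 𝒴` is a fibration in
curves such that the function fields `K` of `𝒴` and `L` of `𝒳` are both purely transcendental over `M`:
`K = M(w_1, …, w_n)`, `L = M(x_1, …, x_{n+1})`.  There is no other condition on the fibration.  So
`𝒴` is birational to `V × ℙ^n` and `𝒳` is birational to `V × ℙ^{n+1}` over `V`, where `V` is any
variety over `k` with the function field `M`.  The Tate conjecture for divisors on `V` is not known.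

The fibration is given by a model `𝒳 → Spec T`, where `T` is any finitely generated domain over `𝓞 k`
with the quotient field `K`: `𝒳` is finite over the projective line over `T`, all its fibres are
geometrically integral, and the generic fibre is normal (so smooth).
-/

set_option autoImplicit false

namespace Pool.Agent.Results.MP_3d3918_nt.RelativelyRational

open NumberField IsDedekindDomain FF
open Pool.Agent.T6.H77.NB (PurelyTranscendental CurveModel SameIntegers modelAverage classRank
  classRank_eq main_nice niceField_poly)
open Pool.Agent.Y707.PR (HasResidue)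

theorem result (k : Type) [Field k] [NumberField k]
    -- a finitely generated field `M` over `k`
    (M : Type) [Field M] [Algebra k M] [Algebra.EssFiniteType k M]
    -- the function field of the base: `K = M(w_1, …, w_n)`
    (K : Type) [Field K] [CharZero K] [Algebra M K] (n : ℕ) (hK : PurelyTranscendental M K n)
    -- the function field of the total space: `L = M(x_1, …, x_{n+1})`
    (L : Type) [Field L] [Algebra M L] [Algebra K L] [IsScalarTower M K L]
    (hL : PurelyTranscendental M L (n + 1))
    -- `L` is the function field of a geometrically irreducible curve over `K`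
    [IsFF K L] (hcl : ∀ z : L, IsAlgebraic K z → ∃ y : K, algebraMap K L y = z)
    -- the base `Spec T`, of dimension `m` over `k`
    (T : Type) [CommRing T] [IsDomain T] [Algebra (𝓞 k) T] [Algebra.FiniteType (𝓞 k) T]
    [Algebra T K] [IsFractionRing T K] [Algebra T L] [IsScalarTower T K L]
    (hk : SameIntegers k M K T) (m : ℕ) (hm : Algebra.trdeg ℚ K = m)
    -- the model
    (t : L) (A A' : Subalgebra T L) (h : CurveModel K t A A')
    (S : Finset (HeightOneSpectrum (𝓞 k))) :
    ∃ ρ : ℕ, classRank K L = ρ + 1 ∧ HasResidue S (modelAverage k h m) 1 (-(ρ : ℤ)) := by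
  obtain ⟨w, hw, hwK⟩ := hK
  obtain ⟨x, hx, hxL⟩ := hL
  have hcz : CharZero M := by
    have hkM := (algebraMap k M).injective
    exact charZero_of_injective_algebraMap hkM
  have hcM : Cardinal.aleph0 > Algebra.trdeg ℚ M := by
    have h1 := trdeg_add_eq ℚ M (A := K)
    rw [hm] at h1
    refine lt_of_le_of_lt ?_ (Cardinal.natCast_lt_aleph0 (n := m))
    rw [← h1]
    exact self_le_add_right _ _
  obtain ⟨d, hd⟩ := Cardinal.lt_aleph0.1 hcM
  have hn : Algebra.trdeg M K = (n : ℕ) := by
    have hb : IsTranscendenceBasis M w := by
      rw [isTranscendenceBasis_iff_algebraicIndependent_isAlgebraic]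
      refine ⟨hw, ?_⟩
      have h2 : IsFractionRing (Algebra.adjoin M (Set.range w)) K := by
        refine IsFractionRing.of_field _ K fun z => ?_
        have hz : z ∈ IntermediateField.adjoin M (Set.range w) := by rw [hwK]; trivial
        rw [IntermediateField.mem_adjoin_iff_div] at hz
        obtain ⟨r, hr, s, hs, rfl⟩ := hz
        exact ⟨⟨r, hr⟩, ⟨s, hs⟩, rfl⟩
      exact IsLocalization.isAlgebraic (R := Algebra.adjoin M (Set.range w)) (S := K)
        (nonZeroDivisors _)
    have h3 := hb.lift_cardinalMk_eq_trdeg
    simpa using h3.symm
  have hdn : d + n = m := by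
    have h1 := trdeg_add_eq ℚ M (A := K)
    rw [hm, hd, hn] at h1
    exact_mod_cast h1
  subst hdn
  obtain ⟨ρ, hρ, hres⟩ :=
    main_nice k M (niceField_poly hd hw hwK) (niceField_poly hd hx hxL) hm hcl hk h S
  exact ⟨ρ, by rw [classRank_eq, hρ], hres⟩

end Pool.Agent.Results.MP_3d3918_nt.RelativelyRational
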