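import Pool.Agent.T6.H9.NT.Main

/-!
# Nagao's formula for almost all quadratic twists of an arbitrary hyperelliptic fibration

Owner helper9. Let `K` be a number field, `Y` a closed subset of an affine space over `𝓞_K` with
`O(q_v^d)` points modulo `v`, and let `y² = F(x, t)`, `F` monic of odd degree in `x`, be ANY fibration
in hyperelliptic curves over `Y`. We consider the quadratic twists `y² = D(t) F(x, t)` for almost all
polynomials `D = s(t)`, and, more generally, for `D(t) = G(s(t), t)` for any polynomial `G(x, t)` and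
almost all `s`; then over the function field of `Y` the curve `y² = G(x, t)`, twisted by `D`, has the
point with `x = s(t)`, and every homomorphism from its Jacobian to the Jacobian of `y² = F(x, t)`
yields a point of the twist of the latter (`G = F`: the twist has a point with `x = s(t)`).

The prediction of Q1 is that minus the mean value of the fibre averages `A_v` is the rank. We show
that for almost all `s`, ordered by the size of the coefficients, for all `X` up to a power of the size,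
the sum of `A_v log q_v` over `q_v ≤ X` is that of
`- q_v^{-d-1} ∑_t (q_v - #{y² = G(x, t)}) (q_v - #{y² = F(x, t)})`,
up to `X^{1/2+δ}` (and `X^δ` if `d ≥ 2`): the rank of the Jacobian of the twist is, in Nagao's sense,
the number of independent homomorphisms between the Jacobians of `y² = G` and `y² = F` over the
function field of `Y`, which is the prediction of Tate's conjecture for this correlation; for `G = x`,
that is for almost all twists by arbitrary polynomials, the rank is zero.
-/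

set_option autoImplicit false

open NumberField IsDedekindDomain Polynomial

namespace Pool.Agent.Results.MP_3d3918_nt.TwistsOnAverage

open Pool.Agent.T6.H9.NagaoAvg Pool.Agent.T6.H9.NA Pool.Agent.T6.H9.NT Pool.Agent.T6.H9.QM

/-- **Nagao's formula for almost all quadratic twists of a fibration.** -/
theorem result {K : Type} [Field K] [NumberField K] {ι : Type} [Fintype ι]
    (ω : Module.Basis ι ℤ (𝓞 K)) (m n d : ℕ) (hn : 1 ≤ n)
    (I : Set (MvPolynomial (Fin m) (𝓞 K))) (A : ℝ)
    (hI : ∀ v : HeightOneSpectrum (𝓞 K),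
      ((base I v).ncard : ℝ) ≤ A * (Ideal.absNorm v.asIdeal : ℝ) ^ d)
    (F : (MvPolynomial (Fin m) (𝓞 K))[X]) (hF : F.Monic) (hodd : Odd F.natDegree)
    (δ : ℝ) (hδ : 0 < δ) :
    (∀ G : (MvPolynomial (Fin m) (𝓞 K))[X], ∃ L : ℝ, 0 < L ∧
      ∀ (N : ℕ) (B : (Fin m → Fin (n + 1)) × ι → ℕ), (∀ j, N ≤ B j) → ∀ X₀ : ℝ, 1 ≤ X₀ →
      ({c : (Fin m → Fin (n + 1)) → 𝓞 K | c ∈ Box ω B ∧ ∃ X : ℕ, X₀ ≤ X ∧ X ^ 5 ≤ N ∧
        (X : ℝ) ^ (max 0 (1 - (d : ℝ) / 2) + δ) < |∑ᶠ v ∈ primes K X,
          (fibreAverage I d (twist G F (sPoly c)) v + correlation I d G F v) *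
            Real.log (Ideal.absNorm v.asIdeal)|}.ncard : ℝ) ≤
        L * X₀ ^ (-δ) * ((Box ω B).ncard : ℝ)) ∧
    (∃ L : ℝ, 0 < L ∧
      ∀ (N : ℕ) (B : (Fin m → Fin (n + 1)) × ι → ℕ), (∀ j, N ≤ B j) → ∀ X₀ : ℝ, 1 ≤ X₀ →
      ({c : (Fin m → Fin (n + 1)) → 𝓞 K | c ∈ Box ω B ∧ ∃ X : ℕ, X₀ ≤ X ∧ X ^ 5 ≤ N ∧
        (X : ℝ) ^ (max 0 (1 - (d : ℝ) / 2) + δ) < |∑ᶠ v ∈ primes K X,
          fibreAverage I d (Polynomial.C (sPoly c) * F) v *
            Real.log (Ideal.absNorm v.asIdeal)|}.ncard : ℝ) ≤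
        L * X₀ ^ (-δ) * ((Box ω B).ncard : ℝ)) := by
  classical
  have hA : 0 ≤ A := by
    obtain ⟨v, -⟩ := Pool.Agent.T6.H9.HY.exists_large (K := K) 0
    have h1 := hI v
    have h2 : (0 : ℝ) < (Ideal.absNorm v.asIdeal : ℝ) ^ d := by
      have := one_le_qvR v
      positivity
    by_contra hcon
    push Not at hcon
    have h3 : (0 : ℝ) ≤ ((base I v).ncard : ℝ) := Nat.cast_nonneg _
    nlinarith
  refine ⟨fun G => main I d hA hI hF hodd ω hn hδ G, ?_⟩
  obtain ⟨L, hL0, hL⟩ := main I d hA hI hF hodd ω hn hδ X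
  refine ⟨L, hL0, fun N B hB X₀ hX₀ => le_trans (le_of_eq ?_) (hL N B hB X₀ hX₀)⟩
  congr 2
  ext c
  have h1 : ∀ X' : ℕ, ∑ᶠ v ∈ primes K X', fibreAverage I d (Polynomial.C (sPoly c) * F) v *
      Real.log (Ideal.absNorm v.asIdeal) = ∑ᶠ v ∈ primes K X',
        (fibreAverage I d (twist X F (sPoly c)) v + correlation I d X F v) *
          Real.log (Ideal.absNorm v.asIdeal) := by
    intro X'
    refine finsum_mem_congr rfl fun v hv => ?_
    rw [correlation_X I d F hv.2, add_zero]
    unfold twist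
    rw [Polynomial.eval_X]
  change (_ ∧ ∃ X' : ℕ, _) ↔ (_ ∧ ∃ X' : ℕ, _)
  refine and_congr_right fun _ => exists_congr fun X' => ?_
  rw [h1 X']

end Pool.Agent.Results.MP_3d3918_nt.TwistsOnAverage
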